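import Pool.Agent.Helper16.MD.Stmts

/-!
Module ESA: small moduli.
-/

open Finset Filter
open scoped ComplexConjugate

namespace Pool.Agent.Helper16.MD

/-- number of coincidences as a sum of fibre sizes -/
theorem esa_JJ {ι : Type} {d : ℕ} (X : Finset ι) (x : ι → ZMod d) :
    JJ X x = ∑ p ∈ X, (X.filter fun q => x p = x q).card := by
  unfold JJ
  rw [Finset.card_filter, Finset.sum_product]
  refine Finset.sum_congr rfl fun p _ => ?_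
  rw [Finset.card_filter]

/-- fibre sizes -/
theorem esa_fib {C : ℝ}
    (hC : ∀ i d r : ℕ, 1 ≤ i → 1 ≤ d → d ^ 2 ≤ 2 ^ i → r.Coprime d →
      (((Ioc (2 ^ i) (2 ^ (i + 1))).filter fun p => p.Prime ∧ p % d = r % d).card : ℝ) ≤
        C * 2 ^ i / ((d.totient : ℝ) * i))
    (i d : ℕ) [NeZero d] (Q : Finset ℕ) (hi : 1 ≤ i) (hd : d ^ 2 ≤ 2 ^ i) (hQ : Pb d i Q)
    (p : ℕ) (hp : p ∈ Q) :
    ((Q.filter fun q : ℕ => (p : ZMod d)⁻¹ = (q : ZMod d)⁻¹).card : ℝ) ≤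
      C * 2 ^ i / ((d.totient : ℝ) * i) := by
  have hcop : ∀ q ∈ Q, q.Coprime d := fun q hq =>
    (Nat.Prime.coprime_iff_not_dvd (hQ q hq).1).2 (hQ q hq).2.2.2
  refine le_trans ?_ (hC i d p hi (Nat.one_le_iff_ne_zero.2 (NeZero.ne d)) hd (hcop p hp))
  have hsub : (Q.filter fun q : ℕ => (p : ZMod d)⁻¹ = (q : ZMod d)⁻¹) ⊆
      ((Ioc (2 ^ i) (2 ^ (i + 1))).filter fun q => q.Prime ∧ q % d = p % d) := by
    intro q hq
    rw [Finset.mem_filter] at hq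
    obtain ⟨hq1, hq2⟩ := hq
    obtain ⟨a1, a2, a3, a4⟩ := hQ q hq1
    rw [Finset.mem_filter, Finset.mem_Ioc]
    refine ⟨⟨a2, a3⟩, a1, ?_⟩
    have h1 : (q : ZMod d) * (q : ZMod d)⁻¹ = 1 := ZMod.coe_mul_inv_eq_one q (hcop q hq1)
    have h2 : (p : ZMod d) * (p : ZMod d)⁻¹ = 1 := ZMod.coe_mul_inv_eq_one p (hcop p hp)
    have h3 : (q : ZMod d) = (p : ZMod d) := by
      calc (q : ZMod d) = q * ((p : ZMod d) * (p : ZMod d)⁻¹) := by rw [h2, mul_one]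
        _ = p * ((q : ZMod d) * (q : ZMod d)⁻¹) := by rw [hq2]; ring
        _ = p := by rw [h1, mul_one]
    exact (ZMod.natCast_eq_natCast_iff' q p d).1 h3
  exact_mod_cast Finset.card_le_card hsub

/-- the number of coincidences -/
theorem esa_bd {C : ℝ} (hC0 : 0 < C)
    (hC : ∀ i d r : ℕ, 1 ≤ i → 1 ≤ d → d ^ 2 ≤ 2 ^ i → r.Coprime d →
      (((Ioc (2 ^ i) (2 ^ (i + 1))).filter fun p => p.Prime ∧ p % d = r % d).card : ℝ) ≤
        C * 2 ^ i / ((d.totient : ℝ) * i))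
    (i d : ℕ) [NeZero d] (Q : Finset ℕ) (hi : 1 ≤ i) (hd : d ^ 2 ≤ 2 ^ i) (hQ : Pr d i Q) :
    (JJ Q (fun p : ℕ => (p : ZMod d)⁻¹) : ℝ) ≤ 4 * C * (Q.card : ℝ) ^ 2 / d.totient := by
  have hφ : (0 : ℝ) < d.totient := by
    exact_mod_cast Nat.totient_pos.2 (Nat.pos_of_ne_zero (NeZero.ne d))
  have hi0 : (0 : ℝ) < i := by exact_mod_cast hi
  have hcard : (2 : ℝ) ^ i ≤ 4 * i * Q.card := by exact_mod_cast hQ.2
  have h1 : C * 2 ^ i / ((d.totient : ℝ) * i) ≤ 4 * C * Q.card / d.totient := by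
    rw [div_le_div_iff₀ (by positivity) hφ]
    have := mul_le_mul_of_nonneg_left hcard (mul_nonneg hC0.le hφ.le)
    nlinarith [this]
  rw [esa_JJ]
  push_cast
  calc (∑ p ∈ Q, ((Q.filter fun q : ℕ => (p : ZMod d)⁻¹ = (q : ZMod d)⁻¹).card : ℝ))
      ≤ ∑ _p ∈ Q, 4 * C * (Q.card : ℝ) / d.totient :=
        Finset.sum_le_sum fun p hp => (esa_fib hC i d Q hi hd hQ.1 p hp).trans h1
    _ = 4 * C * (Q.card : ℝ) ^ 2 / d.totient := by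
        rw [Finset.sum_const, nsmul_eq_mul]
        ring

theorem st_ESA (h1 : ST_BTD) (h2 : ST_TOT) (h3 : ST_BIL) : ST_ESA := by
  intro ε hε
  obtain ⟨C, hC0, hC⟩ := h1
  obtain ⟨D₂, hD₂⟩ := h2 (ε / (4 * C)) (by positivity)
  refine ⟨D₂, ?_⟩
  intro i k d _ Q₁ Q₃ b hi hik hDd hd hb hQ₁ hQ₃
  have hφ : (0 : ℝ) < d.totient := by
    exact_mod_cast Nat.totient_pos.2 (Nat.pos_of_ne_zero (NeZero.ne d))
  have hB := h3 ℕ ℕ d Q₁ Q₃ (fun p => (p : ZMod d)⁻¹) (fun r => (r : ZMod d)⁻¹)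
    (fun _ => 1) (fun _ => 1) b hb (fun _ => by simp) (fun _ => by simp)
  have hS : S2 b Q₁ Q₃ = ∑ p ∈ Q₁, ∑ r ∈ Q₃,
      (1 : ℂ) * 1 * ed (b * (p : ZMod d)⁻¹ * (r : ZMod d)⁻¹) := by
    unfold S2
    refine Finset.sum_congr rfl fun p _ => Finset.sum_congr rfl fun r _ => ?_
    rw [one_mul, one_mul]
  rw [← hS] at hB
  have hJ1 := esa_bd hC0 hC i d Q₁ hi hd hQ₁
  have hJ3 := esa_bd hC0 hC k d Q₃ (hi.trans hik)
    (hd.trans (Nat.pow_le_pow_right (by norm_num) hik)) hQ₃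
  have hT := hD₂ d hDd
  have hsq : (d : ℝ) ≤ (ε / (4 * C) * d.totient) ^ 2 := by
    have := Real.sq_sqrt (Nat.cast_nonneg d : (0 : ℝ) ≤ d)
    calc (d : ℝ) = Real.sqrt d ^ 2 := this.symm
      _ ≤ _ := pow_le_pow_left₀ (Real.sqrt_nonneg _) hT 2
  have hfin : ‖S2 b Q₁ Q₃‖ ^ 2 ≤ (ε * Q₁.card * Q₃.card) ^ 2 := by
    calc ‖S2 b Q₁ Q₃‖ ^ 2 ≤ (d : ℝ) * JJ Q₁ (fun p : ℕ => (p : ZMod d)⁻¹) *
          JJ Q₃ (fun r : ℕ => (r : ZMod d)⁻¹) := hB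
      _ ≤ (ε / (4 * C) * d.totient) ^ 2 * (4 * C * (Q₁.card : ℝ) ^ 2 / d.totient) *
          (4 * C * (Q₃.card : ℝ) ^ 2 / d.totient) := by
          refine mul_le_mul (mul_le_mul hsq hJ1 (Nat.cast_nonneg _) (by positivity)) hJ3
            (Nat.cast_nonneg _) (by positivity)
      _ = (ε * Q₁.card * Q₃.card) ^ 2 := by
          field_simp
  exact (pow_le_pow_iff_left₀ (norm_nonneg _) (by positivity) two_ne_zero).1 hfin

end Pool.Agent.Helper16.MD
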